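import Pool.Agent.Q269.SX.St
import Pool.Agent.TH115.SD.Hensel

/-! Project SX, job HEN: the lemma of Hensel for square roots in the finite unramified extensions of a
completion. -/

set_option autoImplicit false

namespace Pool.Agent.Q176.SX

open Polynomial Finset IsDedekindDomain WithZero Filter Topology

/-! ### abstract part -/

section abs

variable {O B : Type*} [CommRing O] [CommRing B] [Algebra O B]

/-- the iteration -/
def stp (p w c2 : B) : ℕ → B × B × B → B × B × B := fun n s =>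
  (s.1 - p ^ (n + 1) * (w * s.2.1), -(s.2.1 * (c2 + 2 * s.2.2 * w)) + p ^ n * (w * s.2.1) ^ 2,
    s.2.2 - p ^ n * (w * s.2.1))

/-- the sequence -/
def sq (p w c2 : B) (s0 : B × B × B) : ℕ → B × B × B
  | 0 => s0
  | n + 1 => stp p w c2 n (sq p w c2 s0 n)

lemma sq_inv {p w c2 r f : B} (h2 : 2 * r * w - 1 = p * c2) {s0 : B × B × B}
    (h0 : s0.1 ^ 2 - f = p * s0.2.1) (h0' : s0.1 - r = p * s0.2.2) (n : ℕ) :
    (sq p w c2 s0 n).1 ^ 2 - f = p ^ (n + 1) * (sq p w c2 s0 n).2.1 ∧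
      (sq p w c2 s0 n).1 - r = p * (sq p w c2 s0 n).2.2 := by
  induction n with
  | zero => exact ⟨by rw [zero_add, pow_one]; exact h0, h0'⟩
  | succ n ih =>
    obtain ⟨i1, i2⟩ := ih
    set y := (sq p w c2 s0 n).1 with hy
    set c := (sq p w c2 s0 n).2.1 with hc
    set e := (sq p w c2 s0 n).2.2 with he
    have e1 : (sq p w c2 s0 (n + 1)).1 = y - p ^ (n + 1) * (w * c) := rfl
    have e2 : (sq p w c2 s0 (n + 1)).2.1 = -(c * (c2 + 2 * e * w)) + p ^ n * (w * c) ^ 2 := rfl
    have e3 : (sq p w c2 s0 (n + 1)).2.2 = e - p ^ n * (w * c) := rfl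
    rw [e1, e2, e3]
    have h3 : 2 * y * w = 1 + p * c2 + 2 * p * e * w := by
      linear_combination h2 + 2 * w * i2
    constructor
    · have h4 : (y - p ^ (n + 1) * (w * c)) ^ 2 - f =
          (y ^ 2 - f) - p ^ (n + 1) * c * (2 * y * w) + (p ^ (n + 1)) ^ 2 * (w * c) ^ 2 := by ring
      rw [h4, i1, h3]
      ring
    · rw [pow_succ]
      linear_combination i2

/-- square roots lift along a complete ideal -/
theorem sqrt_lift {ι : Type*} [Fintype ι] (b : Module.Basis ι O B) (ϖ : O)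
    (hH : ∀ x : O, (∀ m : ℕ, ϖ ^ m ∣ x) → x = 0)
    (hP : ∀ f : ℕ → O, (∀ m, ϖ ^ m ∣ f (m + 1) - f m) → ∃ L, ∀ m, ϖ ^ m ∣ L - f m)
    (f r w : B) (h1 : ∃ c : B, r ^ 2 - f = algebraMap O B ϖ * c)
    (h2 : ∃ c : B, 2 * r * w - 1 = algebraMap O B ϖ * c) : ∃ x : B, x ^ 2 = f := by
  classical
  obtain ⟨c1, h1⟩ := h1
  obtain ⟨c2, h2⟩ := h2
  set p := algebraMap O B ϖ with hp
  set S := sq p w c2 (r, c1, 0) with hS
  have hinv := fun n => sq_inv (f := f) h2 (s0 := (r, c1, 0)) h1 (by rw [sub_self, mul_zero]) n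
  rw [← hS] at hinv
  have hstep : ∀ n, (S (n + 1)).1 - (S n).1 = ϖ ^ (n + 1) • (-(w * (S n).2.1)) := by
    intro n
    have e1 : (S (n + 1)).1 = (S n).1 - p ^ (n + 1) * (w * (S n).2.1) := rfl
    rw [e1, Algebra.smul_def, map_pow, ← hp]
    ring
  have hlim : ∀ i : ι, ∃ L : O, ∀ m : ℕ, ϖ ^ m ∣ L - b.repr ((S m).1) i := by
    intro i
    apply hP (fun m => b.repr ((S m).1) i)
    intro m
    have h3 : b.repr ((S (m + 1)).1) i - b.repr ((S m).1) i =
        b.repr ((S (m + 1)).1 - (S m).1) i := by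
      rw [map_sub, Finsupp.sub_apply]
    rw [h3, hstep m, map_smul, Finsupp.smul_apply, smul_eq_mul]
    exact (pow_dvd_pow ϖ (Nat.le_succ m)).trans (dvd_mul_right _ _)
  choose L hL using hlim
  set x : B := ∑ i, L i • b i with hx
  have hxr : ∀ i, b.repr x i = L i := by
    intro i
    rw [hx, b.repr_sum_self]
  refine ⟨x, ?_⟩
  rw [← sub_eq_zero]
  apply b.repr.injective
  rw [map_zero]
  ext i
  rw [Finsupp.zero_apply]
  apply hH
  intro m
  -- `x = S m` modulo `ϖ ^ m`
  have hz : ∃ z : B, x - (S m).1 = ϖ ^ m • z := by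
    choose z hz using fun i => hL i m
    refine ⟨∑ i, z i • b i, ?_⟩
    apply b.repr.injective
    ext j
    rw [map_sub, Finsupp.sub_apply, hxr, map_smul, Finsupp.smul_apply, b.repr_sum_self, smul_eq_mul]
    exact hz j
  obtain ⟨z, hz⟩ := hz
  have h5 : x ^ 2 - f = ϖ ^ m • (z * (x + (S m).1) + p * (S m).2.1) := by
    have h6 := (hinv m).1
    rw [Algebra.smul_def, map_pow, ← hp] at hz ⊢
    rw [pow_succ] at h6
    linear_combination (x + (S m).1) * hz + h6
  rw [h5, map_smul, Finsupp.smul_apply, smul_eq_mul]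
  exact dvd_mul_right _ _

end abs

/-! ### limits in a complete valued field -/

section val

variable {L : Type*} [Field L] [Valued L (WithZero (Multiplicative ℤ))]

theorem exists_lim [CompleteSpace L] {π : L} (hπ : Valued.v π < 1) (f : ℕ → L)
    (hf : ∀ m : ℕ, Valued.v (f (m + 1) - f m) ≤ Valued.v (π ^ m)) :
    ∃ w : L, ∀ m : ℕ, Valued.v (w - f m) ≤ Valued.v (π ^ m) := by
  have := Pool.Agent.TH115.GD.nonarch (L := L)
  have hlim : Tendsto (fun n => f (n + 1) - f n) atTop (𝓝 0) := by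
    have h3 : Tendsto (fun n : ℕ => π ^ n) atTop (𝓝 0) := Valued.tendsto_zero_pow_of_v_lt_one hπ
    rw [(Valued.hasBasis_nhds_zero L _).tendsto_right_iff] at h3 ⊢
    intro γ hγ
    filter_upwards [h3 γ hγ] with n hn
    have h4 : (Valued.v (R := L)).restrict (f (n + 1) - f n) ≤
        (Valued.v (R := L)).restrict (π ^ n) := (Valuation.restrict_le_iff _).2 (hf n)
    exact lt_of_le_of_lt h4 hn
  have hcau : CauchySeq f := NonarchimedeanAddGroup.cauchySeq_of_tendsto_sub_nhds_zero hlim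
  obtain ⟨w, hw⟩ := cauchySeq_tendsto_of_complete hcau
  have hdec : ∀ m k : ℕ, Valued.v (π ^ (m + k)) ≤ Valued.v (π ^ m) := by
    intro m k
    rw [pow_add, map_mul]
    exact mul_le_of_le_one_right' (by rw [map_pow]; exact pow_le_one' hπ.le k)
  have hA : ∀ m k : ℕ, Valued.v (f (m + k) - f m) ≤ Valued.v (π ^ m) := by
    intro m k
    induction k with
    | zero => rw [add_zero, sub_self, map_zero]; exact zero_le
    | succ k ih =>
      have e : f (m + (k + 1)) - f m = (f (m + k + 1) - f (m + k)) + (f (m + k) - f m) := by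
        rw [← add_assoc]; ring
      rw [e]
      exact (Valued.v.map_add _ _).trans (max_le ((hf (m + k)).trans (hdec m k)) ih)
  refine ⟨w, fun m => ?_⟩
  have hcl : IsClosed {y : L | (Valued.v (R := L)).restrict (y - f m) ≤
      (Valued.v (R := L)).restrict (π ^ m)} := by
    have h7 := Valued.isClosed_closedBall L ((Valued.v (R := L)).restrict (π ^ m))
    exact h7.preimage (f := fun y : L => y - f m) (by fun_prop)
  have h8 : w ∈ {y : L | (Valued.v (R := L)).restrict (y - f m) ≤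
      (Valued.v (R := L)).restrict (π ^ m)} := by
    refine hcl.mem_of_tendsto hw ?_
    filter_upwards [eventually_ge_atTop m] with n hn
    obtain ⟨k, rfl⟩ := Nat.exists_eq_add_of_le hn
    exact (Valuation.restrict_le_iff _).2 (hA m k)
  exact (Valuation.restrict_le_iff _).1 h8

end val

/-! ### the completions -/

section comp

open HeightOneSpectrum (valuedAdicCompletion_surjective mem_adicCompletionIntegers
  adicCompletionIntegers.isUnit_iff_valued_eq_one)

variable {R K : Type} [CommRing R] [IsDedekindDomain R] [Field K] [Algebra R K]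
  [IsFractionRing R K] {v : HeightOneSpectrum R}

variable (v K) in
lemma exists_pi : ∃ ϖ : v.adicCompletionIntegers K,
    Valued.v (ϖ : v.adicCompletion K) = (exp (-1) : ℤᵐ⁰) := by
  obtain ⟨t, ht⟩ := valuedAdicCompletion_surjective K v (exp (-1))
  refine ⟨⟨t, ?_⟩, ht⟩
  rw [mem_adicCompletionIntegers, ht, ← exp_zero, exp_le_exp]
  norm_num

lemma pi_dvd {ϖ : v.adicCompletionIntegers K}
    (hϖ : Valued.v (ϖ : v.adicCompletion K) = (exp (-1) : ℤᵐ⁰)) (m : ℕ)
    (x : v.adicCompletionIntegers K) : ϖ ^ m ∣ x ↔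
      Valued.v (x : v.adicCompletion K) ≤ Valued.v ((ϖ : v.adicCompletion K) ^ m) := by
  have h0 : (ϖ : v.adicCompletion K) ≠ 0 := by
    intro h
    rw [h, map_zero] at hϖ
    exact exp_ne_zero hϖ.symm
  constructor
  · rintro ⟨z, rfl⟩
    have hz := (mem_adicCompletionIntegers _ _ _).1 z.2
    have e : ((ϖ ^ m * z : v.adicCompletionIntegers K) : v.adicCompletion K) =
        (ϖ : v.adicCompletion K) ^ m * z := rfl
    rw [e, map_mul]
    exact mul_le_of_le_one_right' hz
  · intro h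
    have h2 : (x : v.adicCompletion K) / (ϖ : v.adicCompletion K) ^ m ∈
        v.adicCompletionIntegers K := by
      rw [mem_adicCompletionIntegers, map_div₀]
      exact div_le_one_of_le₀ h zero_le
    refine ⟨⟨_, h2⟩, ?_⟩
    apply Subtype.ext
    exact (mul_div_cancel₀ (x : v.adicCompletion K) (pow_ne_zero m h0)).symm

lemma pi_sep {ϖ : v.adicCompletionIntegers K}
    (hϖ : Valued.v (ϖ : v.adicCompletion K) = (exp (-1) : ℤᵐ⁰))
    (x : v.adicCompletionIntegers K) (hx : ∀ m : ℕ, ϖ ^ m ∣ x) : x = 0 := by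
  by_contra hne
  have h0 : Valued.v (x : v.adicCompletion K) ≠ (0 : ℤᵐ⁰) := by
    rw [Valuation.ne_zero_iff]
    intro h
    apply hne
    apply Subtype.ext
    exact h
  set k : ℤ := log (Valued.v (x : v.adicCompletion K) : ℤᵐ⁰) with hk
  have hk' : (Valued.v (x : v.adicCompletion K) : ℤᵐ⁰) = exp k := (exp_log h0).symm
  have h1 := (pi_dvd hϖ (k.natAbs + 1) x).1 (hx _)
  rw [map_pow, hϖ, hk', ← exp_nsmul, exp_le_exp, nsmul_eq_mul] at h1
  push_cast at h1
  have h2 := neg_abs_le k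
  linarith

lemma pi_lim {ϖ : v.adicCompletionIntegers K}
    (hϖ : Valued.v (ϖ : v.adicCompletion K) = (exp (-1) : ℤᵐ⁰))
    (f : ℕ → v.adicCompletionIntegers K) (hf : ∀ m, ϖ ^ m ∣ f (m + 1) - f m) :
    ∃ L, ∀ m, ϖ ^ m ∣ L - f m := by
  have hlt : Valued.v (ϖ : v.adicCompletion K) < (1 : ℤᵐ⁰) := by
    rw [hϖ, ← exp_zero, exp_lt_exp]
    norm_num
  obtain ⟨w, hw⟩ := exists_lim hlt (fun m => (f m : v.adicCompletion K)) (by
    intro m
    have h := (pi_dvd hϖ m (f (m + 1) - f m)).1 (hf m)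
    rw [AddSubgroupClass.coe_sub] at h
    exact h)
  have hwO : w ∈ v.adicCompletionIntegers K := by
    have h1 := hw 0
    rw [pow_zero, map_one] at h1
    have h2 : w - (f 0 : v.adicCompletion K) ∈ v.adicCompletionIntegers K :=
      (mem_adicCompletionIntegers _ _ _).2 h1
    have h3 := add_mem h2 (f 0).2
    rwa [sub_add_cancel] at h3
  refine ⟨⟨w, hwO⟩, fun m => (pi_dvd hϖ m _).2 ?_⟩
  rw [AddSubgroupClass.coe_sub]
  exact hw m

lemma res_zero {ϖ : v.adicCompletionIntegers K}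
    (hϖ : Valued.v (ϖ : v.adicCompletion K) = (exp (-1) : ℤᵐ⁰))
    (x : v.adicCompletionIntegers K)
    (hx : IsLocalRing.residue (v.adicCompletionIntegers K) x = 0) : ϖ ∣ x := by
  rw [IsLocalRing.residue_eq_zero_iff, IsLocalRing.mem_maximalIdeal, mem_nonunits_iff,
    adicCompletionIntegers.isUnit_iff_valued_eq_one] at hx
  have h1 : Valued.v (x : v.adicCompletion K) < (1 : ℤᵐ⁰) :=
    lt_of_le_of_ne ((mem_adicCompletionIntegers _ _ _).1 x.2) hx
  have h2 : Valued.v (x : v.adicCompletion K) ≤ (exp (-1) : ℤᵐ⁰) := by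
    by_cases h0 : Valued.v (x : v.adicCompletion K) = (0 : ℤᵐ⁰)
    · rw [h0]
      exact zero_le
    · rw [← exp_log h0, exp_le_exp]
      rw [← exp_log h0, ← exp_zero, exp_lt_exp] at h1
      omega
  have h3 := (pi_dvd hϖ 1 x).2 (by rw [pow_one, hϖ]; exact h2)
  rwa [pow_one] at h3

lemma poly_zero {ϖ : v.adicCompletionIntegers K}
    (hϖ : Valued.v (ϖ : v.adicCompletion K) = (exp (-1) : ℤᵐ⁰))
    (P : (v.adicCompletionIntegers K)[X])
    (hP : P.map (IsLocalRing.residue (v.adicCompletionIntegers K)) = 0) : C ϖ ∣ P := by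
  rw [C_dvd_iff_dvd_coeff]
  intro i
  apply res_zero hϖ
  rw [← coeff_map, hP, coeff_zero]

end comp

theorem t_HEN : Pool.Agent.Q269.SX.S_HEN := by
  classical
  intro R K _ _ _ _ _ v h2u
  obtain ⟨ϖ, hϖ⟩ := exists_pi (K := K) v
  set ρ := IsLocalRing.residue (v.adicCompletionIntegers K) with hρ
  have hsurj : Function.Surjective ρ := IsLocalRing.residue_surjective
  obtain ⟨t, ht⟩ := h2u.exists_right_inv
  constructor
  · intro U f r hU hirr hf hr
    have hnr : ¬ U.map ρ ∣ r.map ρ := by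
      intro h
      apply hf
      have h3 : U.map ρ ∣ (r.map ρ) ^ 2 := dvd_pow h two_ne_zero
      rw [Polynomial.map_sub, Polynomial.map_pow] at hr
      have h4 := dvd_sub h3 hr
      rwa [sub_sub_cancel] at h4
    obtain ⟨a, b, hab⟩ : IsCoprime (U.map ρ) (r.map ρ) := (hirr.coprime_iff_not_dvd).2 hnr
    obtain ⟨a', ha'⟩ := map_surjective ρ hsurj a
    obtain ⟨b', hb'⟩ := map_surjective ρ hsurj b
    obtain ⟨q, hq⟩ := hr
    obtain ⟨q', hq'⟩ := map_surjective ρ hsurj q
    obtain ⟨V, hV⟩ := poly_zero hϖ (r ^ 2 - f - U * q') (by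
      rw [Polynomial.map_sub, ← hρ, hq, Polynomial.map_mul, hq', sub_self])
    obtain ⟨V', hV'⟩ := poly_zero hϖ (a' * U + b' * r - 1) (by
      rw [Polynomial.map_sub, Polynomial.map_add, Polynomial.map_mul, Polynomial.map_mul,
        Polynomial.map_one, ← hρ, ha', hb', hab, sub_self])
    have hC : algebraMap (v.adicCompletionIntegers K) (AdjoinRoot U) ϖ = AdjoinRoot.mk U (C ϖ) := rfl
    obtain ⟨x, hx⟩ := sqrt_lift (AdjoinRoot.powerBasis' hU).basis ϖ (pi_sep hϖ) (pi_lim hϖ)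
      (AdjoinRoot.mk U f) (AdjoinRoot.mk U r) (AdjoinRoot.mk U (b' * C t))
      ⟨AdjoinRoot.mk U V, by
        rw [hC, ← map_mul, ← hV, ← map_pow, ← map_sub, AdjoinRoot.mk_eq_mk]
        exact ⟨q', by ring⟩⟩
      ⟨AdjoinRoot.mk U V', by
        have e2 : (2 : (v.adicCompletionIntegers K)[X]) * C t = 1 := by
          have : (2 : (v.adicCompletionIntegers K)[X]) = C 2 := rfl
          rw [this, ← C_mul, ht, C_1]
        have e3 : (2 : AdjoinRoot U) * AdjoinRoot.mk U r * AdjoinRoot.mk U (b' * C t) - 1 =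
            AdjoinRoot.mk U (2 * r * (b' * C t) - 1) := by
          simp only [map_sub, map_mul, map_one, map_ofNat]
        rw [hC, ← map_mul, ← hV', e3, AdjoinRoot.mk_eq_mk]
        refine ⟨-a', ?_⟩
        linear_combination (r * b') * e2⟩
    obtain ⟨R', rfl⟩ := AdjoinRoot.mk_surjective x
    refine ⟨R', ?_⟩
    rw [← AdjoinRoot.mk_eq_mk, map_pow]
    exact hx
  · intro x hx hsq
    obtain ⟨y, hy⟩ := hsq
    obtain ⟨r, rfl⟩ := hsurj y
    have hru : IsUnit r := by
      by_contra h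
      have h3 : ρ r = 0 := by
        rw [hρ, IsLocalRing.residue_eq_zero_iff, IsLocalRing.mem_maximalIdeal, mem_nonunits_iff]
        exact h
      have h4 : ρ x = 0 := by rw [hy, h3, mul_zero]
      rw [hρ, IsLocalRing.residue_eq_zero_iff, IsLocalRing.mem_maximalIdeal, mem_nonunits_iff] at h4
      exact h4 hx
    obtain ⟨c, hc⟩ := res_zero hϖ (r ^ 2 - x) (by
      rw [← hρ, map_sub, map_pow, hy, pow_two, sub_self])
    obtain ⟨s, hs⟩ := (h2u.mul hru).exists_right_inv
    obtain ⟨z, hz⟩ := sqrt_lift (Module.Basis.singleton Unit (v.adicCompletionIntegers K)) ϖ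
      (pi_sep hϖ) (pi_lim hϖ) x r s ⟨c, hc⟩ ⟨0, by rw [hs, sub_self, mul_zero]⟩
    exact ⟨z, by rw [← hz]; ring⟩

end Pool.Agent.Q176.SX
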