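import Pool.Agent.Q269.SX.St

/-! Project SX, job LFF: an irreducible polynomial over a finite field with prescribed quadratic symbols. -/

set_option autoImplicit false

namespace Pool.Agent.Q176.SX

open Polynomial Finset Pool.Agent.Y164.PS Pool.Agent.H341R2.Sharp

section

variable {k : Type} [Field k] [Fintype k] [DecidableEq k]

omit [Fintype k] [DecidableEq k] in
lemma natDegree_M (T : Finset k) : (∏ a ∈ T, (X - C a) : k[X]).natDegree = T.card := by
  rw [natDegree_prod_of_monic _ _ (fun a _ => monic_X_sub_C a)]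
  simp

lemma not_sq {T : Finset k} (hT : T.Nonempty) (c : k) (h : k[X]) :
    ∏ a ∈ T, (X - C a) ≠ C c * h ^ 2 := by
  intro he
  have hsep : (∏ a ∈ T, (X - C a) : k[X]).Separable := by
    apply separable_prod_X_sub_C_iff'.2
    intro x _ y _ hxy
    exact hxy
  have hsq := hsep.squarefree
  have h1 : h * h ∣ ∏ a ∈ T, (X - C a) := ⟨C c, by rw [he]; ring⟩
  have h2 := hsq h h1
  have h3 := natDegree_eq_zero_of_isUnit h2
  have h4 := natDegree_M T
  rw [he] at h4
  have h5 : (C c * h ^ 2).natDegree ≤ 0 := by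
    refine natDegree_mul_le.trans ?_
    rw [natDegree_C, zero_add]
    refine (natDegree_pow_le).trans ?_
    rw [h3]
  have h6 := hT.card_pos
  omega

lemma coprime_X {u : k[X]} {d : ℕ} (hu : u ∈ Pr k d) (hd : 2 ≤ d) (c : k) :
    IsCoprime (X - C c) u := by
  rw [mem_Pr] at hu
  apply coprime_of_not_dvd hu.2.1
  intro h
  have h1 := natDegree_le_of_dvd h (X_sub_C_ne_zero c)
  rw [natDegree_X_sub_C, hu.2.2] at h1
  omega

lemma prod_sg {u : k[X]} {d : ℕ} (hu : u ∈ Pr k d) (hd : 2 ≤ d) (T : Finset k) :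
    ∏ c ∈ T, sg (L (X - C c) u) = (lam (∏ c ∈ T, (X - C c)) u : ℝ) := by
  have hu' := mem_Pr.1 hu
  rw [← sg_sum, ← L_prod_left hu'.2.1.ne_zero (fun a _ => X_sub_C_ne_zero a)
    (fun a _ => coprime_X hu hd a), sg_L hu'.2.1.ne_zero]
  exact IsCoprime.prod_left fun a _ => coprime_X hu hd a

/-- a prime with prescribed symbols -/
theorem exists_prime (hk : ringChar k ≠ 2) (S : Finset k) (ε : k → F2) :
    ∃ (d : ℕ) (u : k[X]), Even d ∧ 2 ≤ d ∧ u ∈ Pr k d ∧ ∀ c ∈ S, L (X - C c) u = ε c := by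
  by_contra hcon
  push Not at hcon
  set m : ℕ := 2 + 2 ^ S.card * (5 * S.card + 2) with hm
  have hm2 : 2 ≤ m := by omega
  set d : ℕ := 2 * m with hd
  have hd2 : 2 ≤ d := by omega
  have hno : ∀ u ∈ Pr k d, ∃ c ∈ S, L (X - C c) u ≠ ε c :=
    fun u hu => hcon d u ⟨m, by omega⟩ hd2 hu
  set q : ℝ := (Fintype.card k : ℝ) with hq
  have hq2 : 2 ≤ q := by
    rw [hq]
    exact_mod_cast (Fintype.one_lt_card (α := k))
  have hz : ∀ u ∈ Pr k d, ∏ c ∈ S, (1 + sg (ε c) * sg (L (X - C c) u)) = 0 := by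
    intro u hu
    obtain ⟨c, hc, hne⟩ := hno u hu
    apply prod_eq_zero hc
    have h2 : ∀ x y : F2, x ≠ y → x + y = 1 := by decide
    have h3 := h2 _ _ hne
    rw [mul_comm, ← sg_add, h3, sg_one]
    norm_num
  have hexp : ∀ u : k[X], ∏ c ∈ S, (1 + sg (ε c) * sg (L (X - C c) u)) =
      ∑ T ∈ S.powerset, (∏ c ∈ T, sg (ε c)) * ∏ c ∈ T, sg (L (X - C c) u) := by
    intro u
    rw [prod_one_add]
    apply sum_congr rfl
    intro T _
    rw [prod_mul_distrib]
  have hsum : (0 : ℝ) = ∑ T ∈ S.powerset, (∏ c ∈ T, sg (ε c)) *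
      ∑ u ∈ Pr k d, (lam (∏ c ∈ T, (X - C c)) u : ℝ) := by
    calc (0 : ℝ) = ∑ u ∈ Pr k d, ∏ c ∈ S, (1 + sg (ε c) * sg (L (X - C c) u)) := by
          rw [sum_congr rfl hz, sum_const_zero]
      _ = ∑ u ∈ Pr k d, ∑ T ∈ S.powerset, (∏ c ∈ T, sg (ε c)) *
          (lam (∏ c ∈ T, (X - C c)) u : ℝ) := by
          apply sum_congr rfl
          intro u hu
          rw [hexp u]
          apply sum_congr rfl
          intro T _
          rw [prod_sg hu hd2]
      _ = _ := by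
          rw [sum_comm]
          apply sum_congr rfl
          intro T _
          rw [mul_sum]
  rw [← insert_erase (empty_mem_powerset S), sum_insert (notMem_erase _ _)] at hsum
  have h0 : (∏ c ∈ (∅ : Finset k), sg (ε c)) *
      ∑ u ∈ Pr k d, (lam (∏ c ∈ (∅ : Finset k), (X - C c)) u : ℝ) = (Pr k d).card := by
    rw [prod_empty, prod_empty, one_mul]
    rw [sum_congr rfl (fun u _ => by rw [lam_one_left, Int.cast_one])]
    simp
  rw [h0] at hsum
  set Y : ℝ := (Real.sqrt q) ^ d with hY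
  have hYq : Y = q ^ m := by
    rw [hY, hd, pow_mul, Real.sq_sqrt (by linarith)]
  have hdR : (0 : ℝ) < d := by
    have : 0 < d := by omega
    exact_mod_cast this
  have hTb : ∀ T ∈ S.powerset.erase ∅, (d : ℝ) * |(∏ c ∈ T, sg (ε c)) *
      ∑ u ∈ Pr k d, (lam (∏ c ∈ T, (X - C c)) u : ℝ)| ≤ (5 * S.card + 2) * Y := by
    intro T hT
    rw [mem_erase, mem_powerset] at hT
    have hTn : T.Nonempty := nonempty_iff_ne_empty.2 hT.1
    have h1 := char_sum hk (M := ∏ c ∈ T, (X - C c)) (monic_prod_of_monic _ _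
      (fun a _ => monic_X_sub_C a)) (by rw [natDegree_M]; exact hTn.card_pos)
      (fun c h => not_sq hTn c h) d (by omega)
    rw [natDegree_M] at h1
    have h2 : |∏ c ∈ T, sg (ε c)| = 1 := by
      rw [abs_prod]
      exact prod_eq_one fun c _ => abs_sg _
    rw [abs_mul, h2, one_mul]
    refine h1.trans ?_
    have h3 : (T.card : ℝ) ≤ S.card := by exact_mod_cast card_le_card hT.2
    have hY0 : 0 ≤ Y := by positivity
    have : (5 * (T.card : ℝ) + 2) ≤ 5 * S.card + 2 := by linarith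
    exact mul_le_mul_of_nonneg_right this hY0
  have hrest : (d : ℝ) * |∑ T ∈ S.powerset.erase ∅, (∏ c ∈ T, sg (ε c)) *
      ∑ u ∈ Pr k d, (lam (∏ c ∈ T, (X - C c)) u : ℝ)| ≤ 2 ^ S.card * ((5 * S.card + 2) * Y) := by
    have h1 : (d : ℝ) * |∑ T ∈ S.powerset.erase ∅, (∏ c ∈ T, sg (ε c)) *
        ∑ u ∈ Pr k d, (lam (∏ c ∈ T, (X - C c)) u : ℝ)| ≤
        ∑ T ∈ S.powerset.erase ∅, (d : ℝ) * |(∏ c ∈ T, sg (ε c)) *
        ∑ u ∈ Pr k d, (lam (∏ c ∈ T, (X - C c)) u : ℝ)| := by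
      rw [← mul_sum]
      exact mul_le_mul_of_nonneg_left (abs_sum_le_sum_abs _ _) hdR.le
    refine h1.trans ((sum_le_sum hTb).trans ?_)
    rw [sum_const, nsmul_eq_mul]
    have h2 : ((S.powerset.erase ∅).card : ℝ) ≤ 2 ^ S.card := by
      have h3 := card_erase_le (s := S.powerset) (a := ∅)
      rw [card_powerset] at h3
      exact_mod_cast h3
    apply mul_le_mul_of_nonneg_right h2
    positivity
  have hge := card_Pr_ge (k := k) hk d (by omega)
  rw [← hq, ← hY] at hge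
  have hqd : q ^ d = Y * Y := by
    rw [hYq, ← pow_add, hd, two_mul]
  rw [hqd] at hge
  set Rr := ∑ T ∈ S.powerset.erase ∅, (∏ c ∈ T, sg (ε c)) *
      ∑ u ∈ Pr k d, (lam (∏ c ∈ T, (X - C c)) u : ℝ) with hRr
  have h5 : (d : ℝ) * (Pr k d).card ≤ 2 ^ S.card * ((5 * S.card + 2) * Y) := by
    have h6 : ((Pr k d).card : ℝ) = - Rr := by linarith
    rw [h6]
    refine le_trans ?_ hrest
    exact mul_le_mul_of_nonneg_left (neg_le_abs _) hdR.le
  have hYm : (m : ℝ) < Y := by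
    rw [hYq]
    calc (m : ℝ) < 2 ^ m := by exact_mod_cast Nat.lt_two_pow_self
      _ ≤ q ^ m := pow_le_pow_left₀ (by norm_num) hq2 m
  have hmR : (m : ℝ) = 2 + 2 ^ S.card * (5 * S.card + 2) := by
    rw [hm]; push_cast; ring
  have hY0 : 0 < Y := lt_of_le_of_lt (Nat.cast_nonneg m) hYm
  have h7 : Y * Y ≤ (m : ℝ) * Y := by
    rw [hmR]
    linarith
  have h8 : Y ≤ m := le_of_mul_le_mul_right h7 hY0
  linarith

lemma ch_prod {α : Type*} [DecidableEq α] (s : Finset α) (f : α → k) (hf : ∀ a ∈ s, f a ≠ 0) :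
    ch (∏ a ∈ s, f a) = ∑ a ∈ s, ch (f a) := by
  induction s using Finset.induction_on with
  | empty =>
    rw [prod_empty, sum_empty, ch_eq_zero_iff one_ne_zero]
    exact ⟨1, by ring⟩
  | insert a s ha ih =>
    rw [prod_insert ha, sum_insert ha, ch_mul (hf a (mem_insert_self _ _))
      (prod_ne_zero_iff.2 fun b hb => hf b (mem_insert_of_mem hb)),
      ih fun b hb => hf b (mem_insert_of_mem hb)]

lemma L_X_sub (hk : ringChar k ≠ 2) (hm : IsSquare (-1 : k)) (u : k[X]) (c : k)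
    (hc : u.eval c ≠ 0) : L (X - C c) u = ch (u.eval c) := by
  have h1 : (X - C c) ∣ u - C (u.eval c) := X_sub_C_dvd_sub_C_eval
  rw [L_comm hm, L_congr hk (monic_X_sub_C c) (irreducible_X_sub_C c) h1, L_C hc,
    natDegree_X_sub_C, Nat.cast_one, one_mul]

end

theorem t_LFF : Pool.Agent.Q269.SX.S_LFF := by
  classical
  intro κ _ _ n hk hm hn e y δ hδ hy hsq
  set s : κ := ∏ i, y i with hs
  have hs0 : s ≠ 0 := prod_ne_zero_iff.2 fun i _ => hy i
  set ε : κ → F2 := fun c => if h : ∃ i, e i = c then ch (s * y h.choose) else 0 with hε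
  have hεi : ∀ i, ε (e i) = ch (s * y i) := by
    intro i
    have h : ∃ j, e j = e i := ⟨i, rfl⟩
    have h1 : ε (e i) = ch (s * y h.choose) := by
      rw [hε]
      exact dif_pos h
    have h2 : e h.choose = e i := h.choose_spec
    have h3 := hsq _ _ h2
    rw [h1, ch_mul hs0 (hy _), ch_mul hs0 (hy _)]
    have h4 := (ch_eq_zero_iff (mul_ne_zero (hy _) (hy _))).2 h3
    rw [ch_mul (hy _) (hy _)] at h4
    have h5 : ∀ a b : F2, a + b = 0 → a = b := by decide
    rw [h5 _ _ h4]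
  obtain ⟨d, u, hde, hd2, hu, hL⟩ := exists_prime hk (univ.image e) ε
  have hu' := mem_Pr.1 hu
  have hLi : ∀ i, L (X - C (e i)) u = ch (s * y i) := by
    intro i
    rw [hL (e i) (mem_image_of_mem e (mem_univ i)), hεi]
  have hev : ∀ c : κ, u.eval c ≠ 0 := by
    intro c h0
    have h1 : u.natDegree = 1 :=
      natDegree_eq_of_degree_eq_some (degree_eq_one_of_irreducible_of_root hu'.2.1 h0)
    rw [hu'.2.2] at h1
    omega
  have hcop : ∀ c : κ, IsCoprime (X - C c) u := fun c => coprime_X hu hd2 c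
  have hprodc : IsCoprime (∏ i, (X - C (e i))) u := IsCoprime.prod_left fun i _ => hcop _
  have hp0 : (∏ i, (X - C (e i)) : κ[X]) ≠ 0 := prod_ne_zero_iff.2 fun i _ => X_sub_C_ne_zero _
  have hC0 : (C δ : κ[X]) ≠ 0 := C_ne_zero.2 hδ
  have hfc : IsCoprime (C δ * ∏ i, (X - C (e i))) u := (coprime_C hδ u).mul_left hprodc
  have hnd : ¬ u ∣ C δ * ∏ i, (X - C (e i)) := by
    intro h
    exact hu'.2.1.not_isUnit (hfc.isUnit_of_dvd' h dvd_rfl)
  have hLf : L (C δ * ∏ i, (X - C (e i))) u = 0 := by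
    rw [L_mul_left hu'.2.1.ne_zero hC0 hp0 (coprime_C hδ u) hprodc, L_C hδ, hu'.2.2,
      (ZMod.natCast_eq_zero_iff_even).2 hde, zero_mul, zero_add,
      L_prod_left hu'.2.1.ne_zero (fun i _ => X_sub_C_ne_zero _) (fun i _ => hcop _)]
    rw [sum_congr rfl (fun i _ => by rw [hLi i, ch_mul hs0 (hy i)]), sum_add_distrib, sum_const,
      card_univ, Fintype.card_fin, nsmul_eq_mul, (ZMod.natCast_eq_one_iff_odd).2 hn, one_mul,
      ← ch_prod univ y (fun i _ => hy i), ← hs]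
    have h5 : ∀ a : F2, a + a = 0 := by decide
    exact h5 _
  obtain ⟨r, hr⟩ := (L_eq_zero_iff hk hu'.1 hu'.2.1 hnd).1 hLf
  refine ⟨u, r, s, hu'.1, hu'.2.1, fun i => hev _, hs0, hr, fun i => ?_⟩
  have h1 : s * y i ≠ 0 := mul_ne_zero hs0 (hy i)
  rw [← ch_eq_zero_iff (mul_ne_zero h1 (hev _)), ch_mul h1 (hev _), ← hLi i,
    L_X_sub hk hm u (e i) (hev _)]
  have h5 : ∀ a : F2, a + a = 0 := by decide
  exact h5 _

end Pool.Agent.Q176.SX
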